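import Pool.Agent.Helper51.SDL.Goals

/-!
# Project SD (MP_fc6b1e_nt), packet SDL-PRM: permutation modules.
-/

set_option autoImplicit false

namespace Pool.Agent.Helper56.SDL.PRM

open Pool.Agent.Helper51.REC Pool.Agent.Helper51.SDL

lemma sum_shift (n : ℕ) (g : ℕ → ℤ) (hg : ∀ i, g (i + n) = g i) (l : ℕ) :
    ∑ i ∈ Finset.range n, g (i + l) = ∑ i ∈ Finset.range n, g i := by
  induction l with
  | zero => rfl
  | succ l ih =>
    rw [← ih]
    have h1 := Finset.sum_range_succ' (fun i => g (i + l)) n
    have h2 := Finset.sum_range_succ (fun i => g (i + l)) n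
    have h3 : g (n + l) = g (0 + l) := by rw [add_comm n l, hg, zero_add]
    have h4 : ∑ i ∈ Finset.range n, g (i + (l + 1)) = ∑ i ∈ Finset.range n, g (i + 1 + l) :=
      Finset.sum_congr rfl fun i _ => by rw [show i + (l + 1) = i + 1 + l by ring]
    rw [h4]
    linarith

lemma sum_mul (n : ℕ) (g : ℕ → ℤ) (hg : ∀ i, g (i + n) = g i) (k : ℕ) :
    ∑ i ∈ Finset.range (k * n), g i = k * ∑ i ∈ Finset.range n, g i := by
  induction k with
  | zero => simp
  | succ k ih =>
    rw [Nat.succ_mul, Finset.sum_range_add, ih]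
    have h1 : ∑ i ∈ Finset.range n, g (k * n + i) = ∑ i ∈ Finset.range n, g i := by
      rw [← sum_shift n g hg (k * n)]
      exact Finset.sum_congr rfl fun i _ => by rw [add_comm]
    rw [h1]
    push_cast
    ring

/-- a function with periods `n` and `m` whose sum over `n` places is zero has sum zero over `m` places -/
lemma sum_zero (n m : ℕ) (hn : 0 < n) (g : ℕ → ℤ) (hg : ∀ i, g (i + n) = g i)
    (hm : ∀ i, g (i + m) = g i) (h0 : ∑ i ∈ Finset.range n, g i = 0) :
    ∑ i ∈ Finset.range m, g i = 0 := by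
  have h1 := sum_mul n g hg m
  have h2 := sum_mul m g hm n
  rw [h0, mul_comm m n] at h1
  rw [h1] at h2
  have h3 : (n : ℤ) ≠ 0 := by exact_mod_cast hn.ne'
  have h4 : (n : ℤ) * ∑ i ∈ Finset.range m, g i = 0 := by rw [← h2, mul_zero]
  exact (mul_eq_zero.1 h4).resolve_left h3

lemma perm_ai {P : Type} (f : Equiv.Perm P) (x : P) : f (f⁻¹ x) = x := f.apply_symm_apply x

lemma perm_ia {P : Type} (f : Equiv.Perm P) (x : P) : f⁻¹ (f x) = x := f.symm_apply_apply x

theorem t : S_PRM := by
  classical
  intro n P Q π b hO u hu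
  have hup : ∀ (i : ℕ) (d : Multiplicative (P →₀ ℤ)) (w : P),
      ((u ^ i : MulAut (Multiplicative (P →₀ ℤ))) d).toAdd ((π ^ i) w) = d.toAdd w := by
    intro i
    induction i with
    | zero => intro d w; rfl
    | succ i ih =>
      intro d w
      rw [pow_succ, pow_succ]
      show ((u ^ i : MulAut (Multiplicative (P →₀ ℤ))) (u d)).toAdd ((π ^ i) (π w)) = _
      rw [ih, hu]
  have hup' : ∀ (i : ℕ) (d : Multiplicative (P →₀ ℤ)) (w : P),
      ((u ^ i : MulAut (Multiplicative (P →₀ ℤ))) d).toAdd w = d.toAdd ((π ^ i)⁻¹ w) := by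
    intro i d w
    have h := hup i d ((π ^ i)⁻¹ w)
    rwa [perm_ai] at h
  have hnm : ∀ (d : Multiplicative (P →₀ ℤ)) (w : P),
      (nmG n u d).toAdd w = ∑ i ∈ Finset.range n, d.toAdd ((π ^ i)⁻¹ w) := by
    intro d w
    unfold nmG
    rw [MonoidHom.finsetProd_apply, toAdd_prod, Finsupp.finsetSum_apply]
    exact Finset.sum_congr rfl fun i _ => hup' i d w
  have hper : ∀ (i : ℕ) (w : P), (π ^ (i + n)) w = (π ^ i) w := by
    intro i w
    rw [pow_add]
    show (π ^ i) ((π ^ n) w) = _
    rw [hO.pow]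
  have hpm : ∀ (k : ℕ) (w : P), (π ^ (k * n)) w = w := by
    intro k w
    induction k with
    | zero => simp
    | succ k ih => rw [Nat.succ_mul, hper, ih]
  have hmod : ∀ (i : ℕ) (w : P), (π ^ i) w = (π ^ (i % n)) w := by
    intro i w
    conv_lhs => rw [← Nat.mod_add_div i n, mul_comm, pow_add]
    show (π ^ (i % n)) ((π ^ (i / n * n)) w) = _
    rw [hpm]
  have hb : ∀ (i : ℕ) (w : P), b ((π ^ i) w) = b w := fun i w =>
    ((hO.orb w ((π ^ i) w)).2 ⟨i, rfl⟩).symm
  have hb1 : ∀ w : P, b (π w) = b w := fun w => by simpa using hb 1 w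
  have hsurj : ∀ q, b (Function.surjInv hO.surj q) = q := Function.surjInv_eq hO.surj
  refine ⟨?_, ?_, ?_, ?_, ?_⟩
  · intro d
    apply Multiplicative.toAdd.injective
    ext w
    have := hup n d w
    rwa [hO.pow] at this
  · intro d hd
    -- the sum over a period
    have hz : ∀ w : P, ∑ j ∈ Finset.range n, d.toAdd ((π ^ j) w) = 0 := by
      intro w
      have h1 : ∑ i ∈ Finset.range n, d.toAdd ((π ^ i)⁻¹ ((π ^ n) w)) = 0 := by
        rw [← hnm, hd]
        rfl
      have h2 : ∀ i ∈ Finset.range n, d.toAdd ((π ^ i)⁻¹ ((π ^ n) w)) =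
          d.toAdd ((π ^ (n - i)) w) := by
        intro i hi
        have hi' : i ≤ n := (Finset.mem_range.1 hi).le
        congr 1
        rw [Equiv.Perm.inv_eq_iff_eq]
        have : π ^ n = π ^ i * π ^ (n - i) := by rw [← pow_add, Nat.add_sub_cancel' hi']
        rw [this]
        rfl
      rw [Finset.sum_congr rfl h2] at h1
      have h3 := Finset.sum_range_reflect (fun j => d.toAdd ((π ^ (j + 1)) w)) n
      have h4 : ∑ j ∈ Finset.range n, d.toAdd ((π ^ (n - 1 - j + 1)) w) =
          ∑ j ∈ Finset.range n, d.toAdd ((π ^ (n - j)) w) := by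
        refine Finset.sum_congr rfl fun j hj => ?_
        have := Finset.mem_range.1 hj
        rw [show n - 1 - j + 1 = n - j by omega]
      rw [h4, h1] at h3
      have h5 := sum_shift n (fun j => d.toAdd ((π ^ j) w)) (fun i => by simp only [hper]) 1
      rw [← h5]
      exact h3.symm
    -- representatives
    have hrep : ∀ w : P, ∃ i : ℕ, w = (π ^ i) (Function.surjInv hO.surj (b w)) := fun w =>
      (hO.orb _ _).1 (hsurj (b w))
    choose k hk using hrep
    have hwd : ∀ (r : P) (i i' : ℕ), i ≤ i' → (π ^ i) r = (π ^ i') r →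
        ∑ j ∈ Finset.range (i + 1), d.toAdd ((π ^ j) r) =
        ∑ j ∈ Finset.range (i' + 1), d.toAdd ((π ^ j) r) := by
      intro r i i' hii he
      obtain ⟨m, rfl⟩ := Nat.exists_eq_add_of_le hii
      have hm : (π ^ m) r = r := by
        have h1 : (π ^ i) r = (π ^ i) ((π ^ m) r) := by
          rw [he, pow_add]; rfl
        exact ((π ^ i).injective h1).symm
      have hgm : ∀ j, d.toAdd ((π ^ (j + m)) r) = d.toAdd ((π ^ j) r) := by
        intro j
        rw [pow_add]
        show d.toAdd ((π ^ j) ((π ^ m) r)) = _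
        rw [hm]
      have h0 := sum_zero n m hO.pos (fun j => d.toAdd ((π ^ j) r))
        (fun i => by simp only [hper]) hgm (hz r)
      have h1 : i + m + 1 = (i + 1) + m := by ring
      rw [h1, Finset.sum_range_add _ (i + 1) m]
      have h2 : ∑ x ∈ Finset.range m, d.toAdd ((π ^ (i + 1 + x)) r) = 0 := by
        rw [← h0, ← sum_shift m (fun j => d.toAdd ((π ^ j) r)) hgm (i + 1)]
        exact Finset.sum_congr rfl fun x _ => by rw [add_comm]
      rw [h2, add_zero]
    let y0 : P → ℤ := fun w =>
      ∑ j ∈ Finset.range (k w + 1), d.toAdd ((π ^ j) (Function.surjInv hO.surj (b w)))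
    have hy0 : ∀ (w : P) (i : ℕ), w = (π ^ i) (Function.surjInv hO.surj (b w)) →
        y0 w = ∑ j ∈ Finset.range (i + 1), d.toAdd ((π ^ j) (Function.surjInv hO.surj (b w))) := by
      intro w i hi
      rcases le_total (k w) i with h | h
      · exact hwd _ _ _ h ((hk w).symm.trans hi)
      · exact (hwd _ _ _ h (hi.symm.trans (hk w))).symm
    have hsup : ∀ w, y0 w ≠ 0 → w ∈ d.toAdd.support.biUnion fun w' =>
        (Finset.range n).image fun i => (π ^ i) w' := by
      intro w hw
      obtain ⟨j, -, hj⟩ := Finset.exists_ne_zero_of_sum_ne_zero hw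
      rw [Finset.mem_biUnion]
      refine ⟨_, Finsupp.mem_support_iff.2 hj, ?_⟩
      rw [Finset.mem_image]
      refine ⟨(k w + j * n - j) % n, Finset.mem_range.2 (Nat.mod_lt _ hO.pos), ?_⟩
      rw [← hmod]
      have hle : j ≤ k w + j * n := le_trans (Nat.le_mul_of_pos_right j hO.pos) (Nat.le_add_left _ _)
      have h1 : (π ^ (k w + j * n - j)) ((π ^ j) (Function.surjInv hO.surj (b w))) =
          (π ^ (k w + j * n)) (Function.surjInv hO.surj (b w)) := by
        conv_rhs => rw [← Nat.sub_add_cancel hle, pow_add]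
        rfl
      rw [h1, pow_add]
      show (π ^ k w) ((π ^ (j * n)) (Function.surjInv hO.surj (b w))) = w
      rw [hpm, ← hk]
    refine ⟨Multiplicative.ofAdd (Finsupp.onFinset _ y0 hsup), ?_⟩
    have hfin : ∀ w, d.toAdd w = y0 w - y0 (π⁻¹ w) := by
      intro w
      have hbw : b (π⁻¹ w) = b w := by
        have := hb1 (π⁻¹ w)
        rw [perm_ai] at this
        exact this.symm
      have hkw := hk (π⁻¹ w)
      rw [hbw] at hkw
      have h1 : w = (π ^ (k (π⁻¹ w) + 1)) (Function.surjInv hO.surj (b w)) := by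
        rw [add_comm, pow_add, pow_one]
        show w = π ((π ^ (k (π⁻¹ w))) (Function.surjInv hO.surj (b w)))
        rw [← hkw, perm_ai]
      have h2 := hy0 w _ h1
      have h3 : y0 (π⁻¹ w) = ∑ j ∈ Finset.range (k (π⁻¹ w) + 1),
          d.toAdd ((π ^ j) (Function.surjInv hO.surj (b w))) := by
        show ∑ j ∈ Finset.range (k (π⁻¹ w) + 1),
          d.toAdd ((π ^ j) (Function.surjInv hO.surj (b (π⁻¹ w)))) = _
        rw [hbw]
      rw [h2, h3, Finset.sum_range_succ _ (k (π⁻¹ w) + 1), ← h1]
      ring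
    apply Multiplicative.toAdd.injective
    ext w
    have h4 := hup' 1 (Multiplicative.ofAdd (Finsupp.onFinset _ y0 hsup)) w
    rw [pow_one, pow_one] at h4
    have h5 : (dfG u (Multiplicative.ofAdd (Finsupp.onFinset _ y0 hsup))).toAdd w =
        y0 w - y0 (π⁻¹ w) := by
      show (Multiplicative.ofAdd (Finsupp.onFinset _ y0 hsup) /
        u (Multiplicative.ofAdd (Finsupp.onFinset _ y0 hsup))).toAdd w = _
      rw [toAdd_div, Finsupp.sub_apply, h4]
      rfl
    rw [h5]
    exact hfin w
  · intro d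
    constructor
    · intro hd
      have hd' : u d = d := hd
      have h1 : ∀ w, d.toAdd (π w) = d.toAdd w := by
        intro w
        have := hu d w
        rwa [hd'] at this
      have h2 : ∀ (i : ℕ) (w : P), d.toAdd ((π ^ i) w) = d.toAdd w := by
        intro i
        induction i with
        | zero => intro w; rfl
        | succ i ih =>
          intro w
          rw [pow_succ]
          show d.toAdd ((π ^ i) (π w)) = _
          rw [ih, h1]
      refine ⟨Finsupp.onFinset (d.toAdd.support.image b)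
        (fun q => d.toAdd (Function.surjInv hO.surj q)) ?_, ?_⟩
      · intro q hq
        exact Finset.mem_image.2 ⟨_, Finsupp.mem_support_iff.2 hq, hsurj q⟩
      · intro w
        obtain ⟨i, hi⟩ := (hO.orb _ _).1 (hsurj (b w))
        show _ = d.toAdd (Function.surjInv hO.surj (b w))
        conv_lhs => rw [hi]
        exact h2 i _
    · rintro ⟨e, he⟩
      show u d = d
      apply Multiplicative.toAdd.injective
      ext w
      have h1 := hu d (π⁻¹ w)
      rw [perm_ai] at h1
      have h2 := hb1 (π⁻¹ w)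
      rw [perm_ai] at h2
      show (u d).toAdd w = d.toAdd w
      rw [h1, he, he, h2]
  · intro e
    refine ⟨Multiplicative.ofAdd (Finsupp.onFinset
      (e.support.biUnion fun q => (Finset.range n).image fun i =>
        (π ^ i) (Function.surjInv hO.surj q)) (fun w => e (b w)) ?_), fun w => rfl⟩
    intro w hw
    obtain ⟨i, hi⟩ := (hO.orb _ _).1 (hsurj (b w))
    refine Finset.mem_biUnion.2 ⟨b w, Finsupp.mem_support_iff.2 hw, Finset.mem_image.2
      ⟨i % n, Finset.mem_range.2 (Nat.mod_lt _ hO.pos), ?_⟩⟩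
    rw [← hmod]
    exact hi.symm
  · intro w w'
    rw [hnm]
    have h1 : ∀ i ∈ Finset.range n, (Multiplicative.ofAdd (Finsupp.single w (1 : ℤ))).toAdd
        ((π ^ i)⁻¹ w') = if (π ^ i) w = w' then (1 : ℤ) else 0 := by
      intro i _
      rw [toAdd_ofAdd, Finsupp.single_apply]
      have : (w = (π ^ i)⁻¹ w') ↔ (π ^ i) w = w' := by
        constructor
        · intro h; rw [h, perm_ai]
        · intro h; rw [← h, perm_ia]
      simp only [this]
    rw [Finset.sum_congr rfl h1, Finsupp.single_apply]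
    by_cases hbb : b w = b w'
    · rw [if_pos hbb]
      obtain ⟨l, rfl⟩ := (hO.orb _ _).1 hbb
      have h2 := sum_shift n (fun i => if (π ^ i) w = (π ^ l) w then (1 : ℤ) else 0)
        (fun i => by simp only [hper]) l
      rw [← h2]
      have h3 : ∀ i, ((π ^ (i + l)) w = (π ^ l) w) ↔ (π ^ i) w = w := by
        intro i
        rw [add_comm, pow_add]
        show (π ^ l) ((π ^ i) w) = (π ^ l) w ↔ _
        exact (π ^ l).injective.eq_iff
      simp only [h3]
      unfold fx
      rw [Finset.card_filter]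
      push_cast
      rfl
    · rw [if_neg hbb]
      refine Finset.sum_eq_zero fun i _ => if_neg fun h => hbb ?_
      rw [← h, hb]

end Pool.Agent.Helper56.SDL.PRM
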